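import Pool.Agent.Lib.MP_ca0fc2_an.Mg.G045
import Pool.Agent.Lib.MP_ca0fc2_an.SPDefs

/-! Campaign TB: transplantation of corona data from the ball to a strictly pseudoconvex domain. Definitions. -/

set_option autoImplicit false

open Metric Set Filter Topology

namespace Pool.Agent.MPca0fc2.TB

/-- `ℂⁿ` with the euclidean norm -/
abbrev En (n : ℕ) := EuclideanSpace ℂ (Fin n)

/-- `h` is a holomorphic solution of `∑ f_j h_j = 1` on `D` with `|h| ≤ A` (euclidean norm). -/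
def IsSol {n N : ℕ} (f h : En n → En N) (D : Set (En n)) (A : ℝ) : Prop :=
  DifferentiableOn ℂ h D ∧ (∀ z ∈ D, ‖h z‖ ≤ A) ∧ ∀ z ∈ D, ∑ j, f z j * h z j = 1

/-- `∑ f_j h_j = 1` has a holomorphic solution on `D` with `|h| ≤ A`. -/
def Solv {n N : ℕ} (f : En n → En N) (D : Set (En n)) (A : ℝ) : Prop := ∃ h, IsSol f h D A

/-- A holomorphic peak function `w` (with nonnegative real part) and a defining function `ρ` at the boundary point `p`. -/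
structure PK {n : ℕ} (D : Set (En n)) (p : En n) (w : En n → ℂ) (ρ : En n → ℝ) (V : Set (En n))
    (r c : ℝ) : Prop where
  r0 : 0 < r
  c0 : 0 < c
  bdd : Bornology.IsBounded D
  dopn : IsOpen D
  pcl : p ∈ closure D
  opn : IsOpen V
  clV : closure D ⊆ V
  bV : ball p r ⊆ V
  hol : DifferentiableOn ℂ w V
  cw : ContDiffOn ℝ 2 w V
  w0 : w p = 0
  dw : fderiv ℂ w p ≠ 0
  pos : ∀ z ∈ closure D, c * ‖z - p‖ ^ 2 ≤ (w z).re
  cρ : ContDiffOn ℝ 2 ρ (ball p r)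
  ρ0 : ρ p = 0
  loc : ∀ z ∈ ball p r, (z ∈ D ↔ ρ z < 0)
  loc' : ∀ z ∈ ball p r, z ∈ closure D → ρ z ≤ 0
  sup : ∀ z ∈ ball p r, c * ‖z - p‖ ^ 2 ≤ (w z).re + ρ z

/-- The second order description of `D` near `p`: up to `o(|z - p|²)`, `D = {Re w > B (z - p, z - p)}`. -/
structure TP {n : ℕ} (D : Set (En n)) (p : En n) (w : En n → ℂ) (B : En n →L[ℝ] En n →L[ℝ] ℝ)
    (V : Set (En n)) (r c : ℝ) : Prop where
  r0 : 0 < r
  c0 : 0 < c
  bdd : Bornology.IsBounded D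
  dopn : IsOpen D
  pcl : p ∈ closure D
  opn : IsOpen V
  clV : closure D ⊆ V
  bV : ball p r ⊆ V
  hol : DifferentiableOn ℂ w V
  cw : ContDiffOn ℝ 2 w V
  w0 : w p = 0
  dw : fderiv ℂ w p ≠ 0
  pos : ∀ z ∈ closure D, c * ‖z - p‖ ^ 2 ≤ (w z).re
  symm : ∀ u v, B u v = B v u
  Bpos : ∀ v, c * ‖v‖ ^ 2 ≤ B v v
  loc1 : ∀ ε > 0, ∃ s > 0, ∀ z ∈ closure D, ‖z - p‖ < s →
    B (z - p) (z - p) - ε * ‖z - p‖ ^ 2 ≤ (w z).re
  loc2 : ∀ ε > 0, ∃ s > 0, ∀ z, ‖z - p‖ < s →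
    B (z - p) (z - p) + ε * ‖z - p‖ ^ 2 < (w z).re → z ∈ D

/-- the hermitian part of the real quadratic form `B (v, v)` -/
noncomputable def Lh {n : ℕ} (B : En n →L[ℝ] En n →L[ℝ] ℝ) (v : En n) : ℝ :=
  (B v v + B (Complex.I • v) (Complex.I • v)) / 2

/-- the complex quadratic form whose real part is the other part of `B (v, v)` -/
noncomputable def Eh {n : ℕ} (B : En n →L[ℝ] En n →L[ℝ] ℝ) (v : En n) : ℂ :=
  (((B v v - B (Complex.I • v) (Complex.I • v)) / 2 : ℝ) : ℂ) -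
    Complex.I * ((B v (Complex.I • v) : ℝ) : ℂ)

/-- the corrected peak function: its second order jet is the one of the Levi polynomial -/
noncomputable def Wm {n : ℕ} (B : En n →L[ℝ] En n →L[ℝ] ℝ) (w : En n → ℂ) (p : En n) (m : ℝ)
    (z : En n) : ℂ := w z - Eh B (z - p) / (1 + (m : ℂ) * w z)

/-- The final description of `D` near `p`: up to small errors `D = {Re W > |S (z - p)|²}`. -/
structure SG {n : ℕ} (D : Set (En n)) (p : En n) (W : En n → ℂ) (S : En n →L[ℂ] En n) (e : En n)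
    (κ C : ℝ) : Prop where
  e1 : ‖e‖ = 1
  orth : ∀ v, inner ℂ e (S v) = 0
  κ0 : 0 < κ
  C0 : 0 < C
  bdd : ∀ z ∈ closure D, ‖z - p‖ ≤ C
  hol : DifferentiableOn ℂ W D
  cont : ContinuousOn W (closure D)
  pos : ∀ z ∈ closure D, κ * ‖z - p‖ ^ 2 ≤ (W z).re
  Wb : ∀ z ∈ closure D, ‖W z‖ ≤ C * ‖z - p‖
  up : ∀ ε > 0, ∃ s > 0, ∀ z ∈ closure D, ‖z - p‖ < s →
    ‖S (z - p)‖ ^ 2 ≤ (W z).re + ε * ‖z - p‖ ^ 2 + C * (‖W z‖ * ‖z - p‖)
  low : ∀ ε > 0, ∃ s > 0, ∀ z, ‖z - p‖ < s →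
    ‖S (z - p)‖ ^ 2 + ε * ‖z - p‖ ^ 2 + C * (‖W z‖ * ‖z - p‖) < (W z).re → z ∈ D
  inv : ∃ a > 0, ∃ G : En n → En n, DifferentiableOn ℂ G (ball 0 a) ∧
    ∀ y ∈ ball (0 : En n) a, S (G y - p) + W (G y) • e = y ∧ ‖G y - p‖ ≤ C * ‖y‖

/-- the Cayley transform from `{Re Y > |x|²}` to the ball -/
noncomputable def cay {n : ℕ} (e : En n) (Y : ℂ) (x : En n) : En n :=
  ((1 - Y) / (1 + Y)) • e + (2 / (1 + Y)) • x

/-- the map from `D` to (nearly) the ball at the scale `r ^ 2` -/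
noncomputable def Th {n : ℕ} (p : En n) (W : En n → ℂ) (S : En n →L[ℂ] En n) (e : En n) (r : ℝ)
    (z : En n) : En n := cay e (W z / (r : ℂ) ^ 2) ((r : ℂ)⁻¹ • S (z - p))

/-- The conclusion of the geometric part: `D` maps into (nearly) the ball, the part away from `p` is mapped to a
neighbourhood of the boundary point `- e`, and the map has a holomorphic right inverse. -/
def Trans {n : ℕ} (D : Set (En n)) (p e : En n) : Prop :=
  ‖e‖ = 1 ∧ ∀ ε > 0, ε < 1 → ∀ s > 0, ∃ Θ ψ : En n → En n,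
    DifferentiableOn ℂ Θ D ∧ ContinuousOn Θ (closure D) ∧ (∀ z ∈ closure D, ‖Θ z‖ < 1 + ε) ∧
    (∀ z ∈ closure D, s ≤ ‖z - p‖ → ‖Θ z + e‖ ≤ ε) ∧
    DifferentiableOn ℂ ψ (ball 0 (1 - ε)) ∧
    ∀ ζ ∈ ball (0 : En n) (1 - ε), ψ ζ ∈ D ∧ ‖ψ ζ - p‖ < s ∧ Θ (ψ ζ) = ζ

end Pool.Agent.MPca0fc2.TB
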