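import Pool.Agent.Lib.MP_ca0fc2_an.SPDefs

/-! The unit ball is a strictly pseudoconvex domain. -/

set_option autoImplicit false

open Metric Set
open scoped ContDiff

namespace Pool.Agent.MPca0fc2.TB

open Pool.Agent.Lib.MP_ca0fc2_an

variable {n : ℕ}

/-- the coordinates -/
noncomputable def prj (j : Fin n) : EuclideanSpace ℂ (Fin n) →L[ℂ] ℂ := EuclideanSpace.proj j

theorem prj_apply (j : Fin n) (z : EuclideanSpace ℂ (Fin n)) : prj j z = z j := rfl

/-- the real linear map `X ↦ 2 Re ∑ conj (y j) X j` -/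
noncomputable def gradL (y : EuclideanSpace ℂ (Fin n)) : EuclideanSpace ℂ (Fin n) →L[ℝ] ℝ :=
  ∑ j, (2 : ℝ) • (innerSL ℝ (y j)).comp
    ((prj j).restrictScalars ℝ)

theorem gradL_apply (y X : EuclideanSpace ℂ (Fin n)) :
    gradL y X = ∑ j, 2 * inner ℝ (y j) (X j) := by
  rw [gradL, ContinuousLinearMap.sum_apply]
  rfl

theorem hasFDerivAt_ball (y : EuclideanSpace ℂ (Fin n)) :
    HasFDerivAt (𝕜 := ℝ) (fun z : EuclideanSpace ℂ (Fin n) => ‖z‖ ^ 2 - 1) (gradL y) y := by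
  have h1 : ∀ j : Fin n, HasFDerivAt (𝕜 := ℝ) (fun z : EuclideanSpace ℂ (Fin n) => ‖z j‖ ^ 2)
      ((2 : ℝ) • (innerSL ℝ (y j)).comp
        ((prj j).restrictScalars ℝ)) y := by
    intro j
    have h2 : HasFDerivAt (𝕜 := ℝ) (fun z : EuclideanSpace ℂ (Fin n) => z j)
        ((prj j).restrictScalars ℝ) y :=
      ((prj j).restrictScalars ℝ).hasFDerivAt
    have h3 := (hasStrictFDerivAt_norm_sq (y j)).hasFDerivAt.comp y h2
    refine HasFDerivAt.congr_fderiv (f := fun z : EuclideanSpace ℂ (Fin n) => ‖z j‖ ^ 2) h3 ?_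
    ext X
    simp only [ContinuousLinearMap.comp_apply, ContinuousLinearMap.smul_apply, nsmul_eq_mul,
      smul_eq_mul, Nat.cast_ofNat]
  have h4 := HasFDerivAt.fun_sum (u := Finset.univ) (fun j _ => h1 j)
  have h5 : (fun z : EuclideanSpace ℂ (Fin n) => ‖z‖ ^ 2 - 1) = fun z => (∑ j, ‖z j‖ ^ 2) - 1 := by
    funext z
    rw [EuclideanSpace.norm_sq_eq]
  rw [h5]
  exact h4.sub_const 1

theorem dirDeriv_ball (y X : EuclideanSpace ℂ (Fin n)) :
    dirDeriv (fun z : EuclideanSpace ℂ (Fin n) => ‖z‖ ^ 2 - 1) y X = ∑ j, 2 * inner ℝ (y j) (X j) := by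
  rw [dirDeriv, (hasFDerivAt_ball y).fderiv, gradL_apply]

theorem dirDeriv_lin (z X Y : EuclideanSpace ℂ (Fin n)) :
    dirDeriv (fun y : EuclideanSpace ℂ (Fin n) => ∑ j, 2 * inner ℝ (y j) (X j)) z Y =
      ∑ j, 2 * inner ℝ (Y j) (X j) := by
  have h1 : (fun y : EuclideanSpace ℂ (Fin n) => ∑ j, 2 * inner ℝ (y j) (X j)) = gradL X := by
    funext y
    rw [gradL_apply]
    exact Finset.sum_congr rfl fun j _ => by rw [real_inner_comm]
  rw [h1, dirDeriv, ContinuousLinearMap.fderiv, gradL_apply]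
  exact Finset.sum_congr rfl fun j _ => by rw [real_inner_comm]

theorem levi_ball (z X : EuclideanSpace ℂ (Fin n)) :
    leviHessian (fun z : EuclideanSpace ℂ (Fin n) => ‖z‖ ^ 2 - 1) z X = ‖X‖ ^ 2 := by
  have h1 : ∀ Y : EuclideanSpace ℂ (Fin n), (fun y => dirDeriv
      (fun z : EuclideanSpace ℂ (Fin n) => ‖z‖ ^ 2 - 1) y Y) =
      fun y : EuclideanSpace ℂ (Fin n) => ∑ j, 2 * inner ℝ (y j) (Y j) := fun Y => by
    funext y
    exact dirDeriv_ball y Y
  rw [leviHessian, h1, h1, dirDeriv_lin, dirDeriv_lin]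
  have h2 : ∀ Y : EuclideanSpace ℂ (Fin n), ∑ j, 2 * inner ℝ (Y j) (Y j) = 2 * ‖Y‖ ^ 2 := fun Y => by
    rw [EuclideanSpace.norm_sq_eq, Finset.mul_sum]
    exact Finset.sum_congr rfl fun j _ => by rw [real_inner_self_eq_norm_sq]
  rw [h2, h2, norm_smul, Complex.norm_I, one_mul]
  ring

theorem isStrictlyPscDomain_ball : IsStrictlyPscDomain (ball (0 : EuclideanSpace ℂ (Fin n)) 1) := by
  refine ⟨isBounded_ball, univ, fun z => ‖z‖ ^ 2 - 1, isOpen_univ, subset_univ _, ?_, ?_, ?_⟩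
  · have h5 : (fun z : EuclideanSpace ℂ (Fin n) => ‖z‖ ^ 2 - 1) = fun z => (∑ j, ‖z j‖ ^ 2) - 1 := by
      funext z
      rw [EuclideanSpace.norm_sq_eq]
    rw [h5]
    refine ContDiff.contDiffOn ?_
    refine ContDiff.sub (ContDiff.sum fun j _ => ?_) contDiff_const
    exact (contDiff_norm_sq ℝ).comp
      ((prj j).restrictScalars ℝ).contDiff
  · ext z
    rw [mem_ball_zero_iff]
    constructor
    · intro h
      exact ⟨mem_univ _, by nlinarith [norm_nonneg z]⟩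
    · rintro ⟨-, h⟩
      nlinarith [norm_nonneg z]
  · intro z hz
    have hz1 : ‖z‖ = 1 := by
      have := frontier_ball_subset_sphere hz
      simpa using this
    refine ⟨⟨z, ?_⟩, fun X hX _ _ => ?_⟩
    · rw [dirDeriv_ball]
      have h2 : ∑ j, 2 * inner ℝ (z j) (z j) = 2 * ‖z‖ ^ 2 := by
        rw [EuclideanSpace.norm_sq_eq, Finset.mul_sum]
        exact Finset.sum_congr rfl fun j _ => by rw [real_inner_self_eq_norm_sq]
      rw [h2, hz1]
      norm_num
    · rw [levi_ball]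
      have := norm_pos_iff.2 hX
      positivity

end Pool.Agent.MPca0fc2.TB
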