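import Pool.Agent.Lib.MP_ca0fc2_an.TB.Defs
import Pool.Agent.Lib.MP_ca0fc2_an.Mg.G073

/-! Gluing infinitely many data. -/

set_option autoImplicit false

open Metric Set Filter Topology

namespace Pool.Agent.MPca0fc2.TB

variable {n N : ℕ}

/-- A normally convergent series of holomorphic functions of several variables is holomorphic. -/
private theorem G2_tsum {U : Set (En n)} (hU : IsOpen U) {h : ℕ → En n → En N} {u : ℕ → ℝ}
    (hu : Summable u) (hh : ∀ k, DifferentiableOn ℂ (h k) U) (hb : ∀ k, ∀ z ∈ U, ‖h k z‖ ≤ u k)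
    (hu0 : ∀ k, 0 ≤ u k) : DifferentiableOn ℂ (fun z => ∑' k, h k z) U := by
  rw [differentiableOn_euclidean]
  intro i
  set 𝒰 : Ultrafilter ℕ := Ultrafilter.of atTop with h𝒰
  have hle : (𝒰 : Filter ℕ) ≤ atTop := Ultrafilter.of_le _
  have hG : ∀ m, DifferentiableOn ℂ (fun z => ∑ k ∈ Finset.range m, (h k z) i) U := fun m =>
    DifferentiableOn.fun_sum fun k _ => (differentiableOn_euclidean.1 (hh k)) i
  have hM : ∀ m, ∀ z ∈ U, ‖∑ k ∈ Finset.range m, (h k z) i‖ ≤ ∑' k, u k := by
    intro m z hz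
    refine (norm_sum_le _ _).trans ?_
    refine (Finset.sum_le_sum fun k _ => (PiLp.norm_apply_le (h k z) i).trans (hb k z hz)).trans ?_
    exact hu.sum_le_tsum _ fun k _ => hu0 k
  obtain ⟨g, hg1, -, hg3⟩ := SL.ultra_holo 𝒰 hU (tsum_nonneg hu0) hG hM
  refine hg1.congr fun z hz => ?_
  have hs : Summable fun k => h k z := Summable.of_norm_bounded hu fun k => hb k z hz
  have h1 : Tendsto (fun m => ∑ k ∈ Finset.range m, h k z) atTop (𝓝 (∑' k, h k z)) :=
    hs.hasSum.tendsto_sum_nat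
  have h2 : Tendsto (fun m => ∑ k ∈ Finset.range m, (h k z) i) atTop (𝓝 ((∑' k, h k z) i)) := by
    have h3 := ((EuclideanSpace.proj (𝕜 := ℂ) i : StrongDual ℂ (En N)).continuous.tendsto
      (∑' k, h k z)).comp h1
    refine h3.congr fun m => ?_
    simp only [Function.comp]
    rw [map_sum]
    rfl
  exact tendsto_nhds_unique (h2.mono_left hle) (hg3 z hz)

/-- PROOF. `F z = c₀ + ∑' k, (g k z - g k p)` (`hp : p` is in none of the balls, so `‖g k p - c k‖ ≤ η k` and `‖g k z - g k p‖ ≤ 2 η k` off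
`ball (P k) (s k)`). The series converges uniformly on `closure D` minus finitely many balls, and each ball meets only its own
term: on `{z ∈ closure D | ‖z - p‖ ≥ t}` only finitely many balls occur (`P k → p`, `s k → 0`), so the tail of the series is dominated by
`2 η k` there: holomorphic on `D` (`differentiableOn_tsum_of_summable_norm` on `D ∩ {‖z - p‖ > t}` for the tail, an open set; `p ∉ D`
as `D` is open, `p ∈ frontier D`; differentiability is local) and continuous on `closure D \ {p}` (`continuousOn_tsum`). (i) `z ∈ closure D`, `z ≠ p`: if `z` is in no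
ball, `‖F z - c₀‖ ≤ ∑ 2 η k ≤ 2 η`; if `z` is in `ball (P k) (s k)`, `F z - g k z = (c₀ - g k p) + ∑_{j ≠ k} (g j z - g j p)` has the norm `≤ 2 η k + ∑_{j ≠ k} 2 η j ≤ 2 η`
(`‖c₀ - c k‖ ≤ η k`). (ii) Given `τ > 0` choose `J` with `∑_{j ≥ J} 2 η j ≤ τ/2`; for `k ≥ J` large, `2 η k ≤ ..` and for each `j < J`, `‖g j z - g j p‖` is small for `z ∈ closure D`
near `p` (continuity of `g j` at `p ∈ closure D`), and `ball (P k) (s k)` is near `p`. -/
theorem glue {D : Set (En n)} {p : En n} (hD : IsOpen D) (hp : p ∈ frontier D) {P : ℕ → En n}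
    {s : ℕ → ℝ} (hs : ∀ k, 0 < s k) (hP : Tendsto P atTop (𝓝 p)) (hs0 : Tendsto s atTop (𝓝 0))
    (hsp : ∀ k, s k < ‖P k - p‖)
    (hd : ∀ j k, j ≠ k → Disjoint (ball (P j) (s j)) (ball (P k) (s k)))
    {g : ℕ → En n → En N} {c : ℕ → En N} {c₀ : En N} {η : ℕ → ℝ} {η₀ : ℝ}
    (hg : ∀ k, DifferentiableOn ℂ (g k) D) (hgc : ∀ k, ContinuousOn (g k) (closure D))
    (hη : ∀ k, 0 ≤ η k) (hη1 : Summable η) (hη2 : ∑' k, η k ≤ η₀)
    (hoff : ∀ k, ∀ z ∈ closure D, z ∉ ball (P k) (s k) → ‖g k z - c k‖ ≤ η k)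
    (hc : ∀ k, ‖c k - c₀‖ ≤ η k) :
    ∃ F : En n → En N, DifferentiableOn ℂ F D ∧ ContinuousOn F (closure D \ {p}) ∧
      (∀ z ∈ D, (∃ k, ‖F z - g k z‖ ≤ 2 * η₀) ∨ ‖F z - c₀‖ ≤ 2 * η₀) ∧
      ∀ τ > 0, ∃ K, ∀ k, K ≤ k → ∀ z ∈ D, z ∈ ball (P k) (s k) → ‖F z - g k z‖ ≤ τ := by
  classical
  have hpc : p ∈ closure D := frontier_subset_closure hp
  have hpD : p ∉ D := by
    rw [hD.frontier_eq] at hp
    exact hp.2
  have hpb : ∀ k, p ∉ ball (P k) (s k) := by
    intro k h
    rw [mem_ball, dist_comm, dist_eq_norm] at h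
    exact absurd h (not_lt.2 (hsp k).le)
  set T : ℕ → En n → En N := fun k z => g k z - g k p with hTdef
  have hT : ∀ k, ∀ z ∈ closure D, z ∉ ball (P k) (s k) → ‖T k z‖ ≤ 2 * η k := by
    intro k z hz hzb
    have h1 := hoff k z hz hzb
    have h2 := hoff k p hpc (hpb k)
    have h3 : T k z = (g k z - c k) - (g k p - c k) := by
      change g k z - g k p = _
      abel
    rw [h3]
    refine (norm_sub_le _ _).trans ?_
    linarith
  have hη2s : Summable fun k => 2 * η k := hη1.mul_left 2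
  have hη2' : ∑' k, 2 * η k ≤ 2 * η₀ := by
    rw [tsum_mul_left]
    linarith
  have hη20 : ∀ k, 0 ≤ 2 * η k := fun k => by linarith [hη k]
  -- disjointness
  have hdis : ∀ j k, ∀ z, z ∈ ball (P k) (s k) → j ≠ k → z ∉ ball (P j) (s j) := by
    intro j k z hz hjk hz'
    exact Set.disjoint_left.1 (hd j k hjk) hz' hz
  -- balls are near `p`
  have hnear : ∀ t : ℝ, 0 < t → ∃ K, ∀ k, K ≤ k → ∀ z ∈ ball (P k) (s k), ‖z - p‖ < t := by
    intro t ht
    have h1 : Tendsto (fun k => ‖P k - p‖ + s k) atTop (𝓝 0) := by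
      have h2 := ((tendsto_iff_norm_sub_tendsto_zero.1 hP).add hs0)
      rwa [add_zero] at h2
    obtain ⟨K, hK⟩ := eventually_atTop.1 (h1.eventually (gt_mem_nhds ht))
    refine ⟨K, fun k hk z hz => ?_⟩
    have h3 := hK k hk
    rw [mem_ball, dist_eq_norm] at hz
    have h4 : z - p = (z - P k) + (P k - p) := by abel
    rw [h4]
    refine (norm_add_le _ _).trans_lt ?_
    linarith
  -- summability
  have hsum : ∀ z ∈ closure D, Summable fun k => T k z := by
    intro z hz
    by_cases hzb : ∃ k, z ∈ ball (P k) (s k)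
    · obtain ⟨k0, hk0⟩ := hzb
      refine Summable.of_norm_bounded_eventually_nat hη2s ?_
      filter_upwards [eventually_gt_atTop k0] with k hk
      exact hT k z hz (hdis k k0 z hk0 (by omega))
    · refine Summable.of_norm_bounded hη2s fun k => hT k z hz fun h => hzb ⟨k, h⟩
  set F : En n → En N := fun z => c₀ + ∑' k, T k z with hF
  -- the decomposition off a neighbourhood of `p`
  have hdec : ∀ t : ℝ, 0 < t → ∃ K, (∀ k, ∀ z ∈ closure D, t < ‖z - p‖ → ‖T (k + K) z‖ ≤ 2 * η (k + K)) ∧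
      ∀ z ∈ closure D, F z = c₀ + (∑ k ∈ Finset.range K, T k z + ∑' k, T (k + K) z) := by
    intro t ht
    obtain ⟨K, hK⟩ := hnear t ht
    refine ⟨K, fun k z hz hzt => hT _ z hz fun hzb => ?_, fun z hz => ?_⟩
    · exact absurd (hK (k + K) (by omega) z hzb) (not_lt.2 hzt.le)
    · rw [(hsum z hz).sum_add_tsum_nat_add K]
  have hTd : ∀ k, DifferentiableOn ℂ (T k) D := fun k => (hg k).sub_const _
  have hTc : ∀ k, ContinuousOn (T k) (closure D) := fun k => (hgc k).sub continuousOn_const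
  -- rest of the series at a point of `ball (P k) (s k)`
  have hrest : ∀ k, ∀ z ∈ D, z ∈ ball (P k) (s k) →
      (∀ j, ‖(if j = k then 0 else T j z)‖ ≤ (if j = k then 0 else 2 * η j)) ∧
      F z - g k z = (c₀ - g k p) + ∑' j, (if j = k then 0 else T j z) := by
    intro k z hz hzb
    refine ⟨fun j => ?_, ?_⟩
    · by_cases e : j = k
      · rw [if_pos e, if_pos e, norm_zero]
      · rw [if_neg e, if_neg e]
        exact hT j z (subset_closure hz) (hdis j k z hzb e)
    · have h1 := (hsum z (subset_closure hz)).tsum_eq_add_tsum_ite k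
      change c₀ + ∑' k, T k z - g k z = _
      rw [h1]
      change c₀ + (g k z - g k p + _) - g k z = _
      abel
  have hcp : ∀ k, ‖c₀ - g k p‖ ≤ 2 * η k := by
    intro k
    have h1 := hoff k p hpc (hpb k)
    have h2 := hc k
    have h3 : c₀ - g k p = -((c k - c₀) + (g k p - c k)) := by abel
    rw [h3, norm_neg]
    refine (norm_add_le _ _).trans ?_
    linarith
  refine ⟨F, ?_, ?_, ?_, ?_⟩
  · -- holomorphic
    intro z₀ hz₀
    have hne : z₀ ≠ p := fun e => hpD (e ▸ hz₀)
    have hpos : 0 < ‖z₀ - p‖ := norm_pos_iff.2 (sub_ne_zero.2 hne)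
    set t := ‖z₀ - p‖ / 2 with htdef
    have ht : 0 < t := by positivity
    have hUo : IsOpen {z : En n | t < ‖z - p‖} := isOpen_lt continuous_const (by fun_prop)
    set U : Set (En n) := D ∩ {z | t < ‖z - p‖} with hUdef
    have hU : IsOpen U := hD.inter hUo
    have hzU : z₀ ∈ U := ⟨hz₀, by
      change t < ‖z₀ - p‖
      rw [htdef]
      linarith⟩
    obtain ⟨K, hK1, hK2⟩ := hdec t ht
    have h1 : DifferentiableOn ℂ (fun z => ∑' k, T (k + K) z) U :=
      G2_tsum hU ((summable_nat_add_iff K).2 hη2s) (fun k => (hTd _).mono inter_subset_left)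
        (fun k z hz => hK1 k z (subset_closure hz.1) hz.2) fun k => hη20 _
    have h2 : DifferentiableOn ℂ (fun z => ∑ k ∈ Finset.range K, T k z) U :=
      DifferentiableOn.fun_sum fun k _ => (hTd k).mono inter_subset_left
    have h3 : DifferentiableOn ℂ F U := by
      refine ((h2.add h1).const_add c₀).congr fun z hz => ?_
      exact hK2 z (subset_closure hz.1)
    exact ((h3.differentiableAt (hU.mem_nhds hzU))).differentiableWithinAt
  · -- continuous
    intro z₀ hz₀
    have hne : z₀ ≠ p := fun e => hz₀.2 (by simp [e])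
    have hpos : 0 < ‖z₀ - p‖ := norm_pos_iff.2 (sub_ne_zero.2 hne)
    set t := ‖z₀ - p‖ / 2 with htdef
    have ht : 0 < t := by positivity
    have hUo : IsOpen {z : En n | t < ‖z - p‖} := isOpen_lt continuous_const (by fun_prop)
    have hzt : z₀ ∈ {z : En n | t < ‖z - p‖} := by
      change t < ‖z₀ - p‖
      rw [htdef]
      linarith
    set A : Set (En n) := closure D ∩ {z | t < ‖z - p‖} with hAdef
    obtain ⟨K, hK1, hK2⟩ := hdec t ht
    have h1 : ContinuousOn (fun z => ∑' k, T (k + K) z) A :=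
      continuousOn_tsum (fun k => (hTc _).mono inter_subset_left)
        ((summable_nat_add_iff K).2 hη2s) (fun k z hz => hK1 k z hz.1 hz.2)
    have h2 : ContinuousOn (fun z => ∑ k ∈ Finset.range K, T k z) A :=
      continuousOn_finsetSum _ fun k _ => (hTc k).mono inter_subset_left
    have h3 : ContinuousOn F A := by
      refine ((continuousOn_const (c := c₀)).add (h2.add h1)).congr fun z hz => ?_
      exact hK2 z hz.1
    refine (h3 z₀ ⟨hz₀.1, hzt⟩).mono_of_mem_nhdsWithin ?_
    rw [hAdef]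
    refine inter_mem ?_ (mem_nhdsWithin_of_mem_nhds (hUo.mem_nhds hzt))
    exact mem_nhdsWithin.2 ⟨univ, isOpen_univ, mem_univ _, fun z hz => hz.2.1⟩
  · -- (i)
    intro z hz
    by_cases hzb : ∃ k, z ∈ ball (P k) (s k)
    · obtain ⟨k, hk⟩ := hzb
      left
      refine ⟨k, ?_⟩
      obtain ⟨h1, h2⟩ := hrest k z hz hk
      rw [h2]
      have hs1 : Summable fun j => (if j = k then 0 else 2 * η j) :=
        Summable.of_nonneg_of_le (fun j => by split_ifs; exacts [le_rfl, hη20 j])
          (fun j => by split_ifs; exacts [hη20 j, le_rfl]) hη2s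
      have h3 := tsum_of_norm_bounded hs1.hasSum h1
      have h4 := hη2s.tsum_eq_add_tsum_ite k
      refine (norm_add_le _ _).trans ?_
      have h5 := hcp k
      linarith
    · right
      have h1 : ‖∑' k, T k z‖ ≤ ∑' k, 2 * η k :=
        tsum_of_norm_bounded hη2s.hasSum fun k => hT k z (subset_closure hz) fun h => hzb ⟨k, h⟩
      have h2 : F z - c₀ = ∑' k, T k z := by
        change c₀ + ∑' k, T k z - c₀ = _
        abel
      rw [h2]
      linarith
  · -- (ii)
    intro τ hτ
    have hτ3 : 0 < τ / 3 := by positivity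
    obtain ⟨J, hJ⟩ := eventually_atTop.1
      ((tendsto_sum_nat_add fun k => 2 * η k).eventually (gt_mem_nhds hτ3))
    have hJ' := hJ J le_rfl
    have hcont : ContinuousWithinAt (fun z => ∑ j ∈ Finset.range J, ‖T j z‖) (closure D) p :=
      (continuousOn_finsetSum _ fun j _ => (hTc j).norm) p hpc
    have hzero : ∑ j ∈ Finset.range J, ‖T j p‖ = 0 :=
      Finset.sum_eq_zero fun j _ => by
        rw [hTdef]
        simp
    have hev : ∀ᶠ z in 𝓝[closure D] p, ∑ j ∈ Finset.range J, ‖T j z‖ < τ / 3 := by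
      refine hcont.eventually (gt_mem_nhds ?_)
      change ∑ j ∈ Finset.range J, ‖T j p‖ < τ / 3
      rw [hzero]
      exact hτ3
    obtain ⟨δ, hδ, hδ2⟩ := Metric.mem_nhdsWithin_iff.1 hev
    obtain ⟨K1, hK1⟩ := hnear δ hδ
    have hη0 : Tendsto (fun k => 2 * η k) atTop (𝓝 0) := hη2s.tendsto_atTop_zero
    obtain ⟨K2, hK2⟩ := eventually_atTop.1 (hη0.eventually (gt_mem_nhds hτ3))
    refine ⟨max K1 K2, fun k hk z hz hzb => ?_⟩
    obtain ⟨h1, h2⟩ := hrest k z hz hzb
    rw [h2]
    have hs1 : Summable fun j => ‖(if j = k then 0 else T j z)‖ :=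
      Summable.of_nonneg_of_le (fun j => norm_nonneg _)
        (fun j => (h1 j).trans (by split_ifs; exacts [hη20 j, le_rfl])) hη2s
    have h3 : ‖∑' j, (if j = k then 0 else T j z)‖ ≤ ∑' j, ‖(if j = k then 0 else T j z)‖ :=
      norm_tsum_le_tsum_norm hs1
    have h4 := hs1.sum_add_tsum_nat_add J
    have h5 : ∑ j ∈ Finset.range J, ‖(if j = k then 0 else T j z)‖ ≤ ∑ j ∈ Finset.range J, ‖T j z‖ :=
      Finset.sum_le_sum fun j _ => by
        split_ifs
        · rw [norm_zero]; exact norm_nonneg _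
        · exact le_rfl
    have h6 : ∑' j, ‖(if j + J = k then 0 else T (j + J) z)‖ ≤ ∑' j, 2 * η (j + J) :=
      Summable.tsum_le_tsum (fun j => (h1 (j + J)).trans (by split_ifs; exacts [hη20 _, le_rfl]))
        ((summable_nat_add_iff J).2 hs1) ((summable_nat_add_iff J).2 hη2s)
    have h7 : ∑ j ∈ Finset.range J, ‖T j z‖ < τ / 3 := by
      refine hδ2 ⟨?_, subset_closure hz⟩
      rw [mem_ball, dist_eq_norm]
      exact hK1 k ((le_max_left _ _).trans hk) z hzb
    have h8 := hK2 k ((le_max_right _ _).trans hk)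
    have h9 := hcp k
    refine (norm_add_le _ _).trans ?_
    linarith

end Pool.Agent.MPca0fc2.TB
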