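import Pool.Agent.Lib.MP_ca0fc2_an.Mg.G077
import Pool.Agent.Lib.MP_ca0fc2_an.Mg.G080
import Pool.Agent.Lib.MP_ca0fc2_an.Mg.G078
import Pool.Agent.Lib.MP_ca0fc2_an.TB.G2

/-! Local versions: if the corona theorem holds near one boundary point of a strictly pseudoconvex domain, for data which are
continuous up to the boundary at all other points, then it holds on the ball with uniform bounds; the corona constants of the ball are
not larger than the local ones of any strictly pseudoconvex domain at any boundary point, already for data continuous up to the boundary. -/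

set_option autoImplicit false

open Metric Set Filter Topology

namespace Pool.Agent.MPca0fc2.TB

open Pool.Agent.Lib.MP_ca0fc2_an (SupportData)

variable {n N : ℕ}

theorem solv_mono {f : En n → En N} {D : Set (En n)} {A A' : ℝ} (h : Solv f D A) (hA : A ≤ A') :
    Solv f D A' := by
  obtain ⟨g, h1, h2, h3⟩ := h
  exact ⟨g, h1, fun z hz => (h2 z hz).trans hA, h3⟩

theorem solv_sub {f : En n → En N} {D D' : Set (En n)} {A : ℝ} (h : Solv f D A) (hD : D' ⊆ D) :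
    Solv f D' A := by
  obtain ⟨g, h1, h2, h3⟩ := h
  exact ⟨g, h1.mono hD, fun z hz => h2 z (hD hz), fun z hz => h3 z (hD hz)⟩

private lemma G4_cs (a b : En N) : ‖∑ j, a j * b j‖ ≤ ‖a‖ * ‖b‖ := by
  refine (norm_sum_le _ _).trans ?_
  have h1 : ∑ j, ‖a j * b j‖ = ∑ j, ‖a j‖ * ‖b j‖ := Finset.sum_congr rfl fun j _ => norm_mul _ _
  rw [h1, EuclideanSpace.norm_eq, EuclideanSpace.norm_eq]
  exact Real.sum_mul_le_sqrt_mul_sqrt _ _ _

/-- The comparison of the corona constants, local version. -/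
theorem comparison_loc {D : Set (En n)} {p e : En n} (hT : Trans D p e) {a b A r : ℝ} (hr : 0 < r)
    (hQ : ∀ F : En n → En N, DifferentiableOn ℂ F D → ContinuousOn F (closure D) →
      (∀ z ∈ closure D, a ≤ ‖F z‖ ∧ ‖F z‖ ≤ b) → Solv F (D ∩ ball p r) A) {f : En n → En N}
    (hf : DifferentiableOn ℂ f (ball 0 1)) (hb : ∀ z ∈ ball (0 : En n) 1, a ≤ ‖f z‖ ∧ ‖f z‖ ≤ b) :
    Solv f (ball 0 1) A := by
  by_contra hno
  obtain ⟨k₀, hk0, hk1, hk⟩ := solv_gap hf hno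
  obtain ⟨he, hTT⟩ := hT
  set k : ℝ := (1 + k₀) / 2 with hkdef
  set ε : ℝ := (1 - k₀) / 4 with hεdef
  have hkpos : 0 < k := by rw [hkdef]; linarith
  have hklt : k < 1 := by rw [hkdef]; linarith
  have hεpos : 0 < ε := by rw [hεdef]; linarith
  have hεlt : ε < 1 := by rw [hεdef]; linarith
  have hkε : k * ε < (1 - k₀) / 2 := by
    have h1 : k * ε ≤ 1 * ε := mul_le_mul_of_nonneg_right hklt.le hεpos.le
    have h2 : ε < (1 - k₀) / 2 := by rw [hεdef]; linarith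
    linarith
  have h1 : k * (1 + ε) < 1 := by
    have : k * (1 + ε) = k + k * ε := by ring
    rw [this, hkdef] at *
    linarith
  have h2 : k₀ < k * (1 - ε) := by
    have : k * (1 - ε) = k - k * ε := by ring
    rw [this]
    have h3 : k = (1 + k₀) / 2 := hkdef
    linarith
  obtain ⟨Θ, ψ, hΘ, hΘc, hΘb, -, hψ, hψb⟩ := hTT ε hεpos hεlt r hr
  have hmem : ∀ z ∈ closure D, (k : ℂ) • Θ z ∈ ball (0 : En n) 1 := by
    intro z hz
    rw [mem_ball_zero_iff, norm_smul, Complex.norm_real, Real.norm_of_nonneg hkpos.le]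
    exact lt_trans (mul_lt_mul_of_pos_left (hΘb z hz) hkpos) h1
  have hF : DifferentiableOn ℂ (fun z => f ((k : ℂ) • Θ z)) D :=
    hf.comp (hΘ.const_smul (k : ℂ)) fun z hz => hmem z (subset_closure hz)
  have hFc : ContinuousOn (fun z => f ((k : ℂ) • Θ z)) (closure D) :=
    hf.continuousOn.comp (hΘc.const_smul (k : ℂ)) hmem
  obtain ⟨H, hH1, hH2, hH3⟩ := hQ _ hF hFc fun z hz => hb _ (hmem z hz)
  have hin : ∀ ζ ∈ ball (0 : En n) (1 - ε), ψ ζ ∈ D ∩ ball p r := by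
    intro ζ hζ
    refine ⟨(hψb ζ hζ).1, ?_⟩
    rw [mem_ball, dist_eq_norm]
    exact (hψb ζ hζ).2.1
  have hS : Solv (fun ζ => f ((k : ℂ) • ζ)) (ball 0 (1 - ε)) A := by
    refine ⟨fun ζ => H (ψ ζ), hH1.comp hψ hin, fun ζ hζ => hH2 _ (hin ζ hζ), fun ζ hζ => ?_⟩
    have h3 := hH3 _ (hin ζ hζ)
    simp only [(hψb ζ hζ).2.2] at h3
    exact h3
  have hS' := solv_scale (by linarith : (0 : ℝ) < 1 - ε) hS
  refine hk (k * (1 - ε)) h2 ?_ ?_
  · have : k * (1 - ε) ≤ k * 1 := mul_le_mul_of_nonneg_left (by linarith) hkpos.le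
    linarith
  · have e1 : (fun z : En n => f (((k * (1 - ε) : ℝ) : ℂ) • z)) =
        fun z : En n => f ((k : ℂ) • ((((1 - ε : ℝ)) : ℂ) • z)) := by
      funext z
      rw [smul_smul]
      push_cast
      rfl
    rw [e1]
    exact hS'

/-- One step: the transplanted data.
PROOF. `solv_gap` gives `k₀`; `k = (1 + k₀) / 2`; `c = f (- k • e)` (`‖k • e‖ < 1`). By continuity of `x ↦ f (k • x)` at `- e` there is `ε > 0` with: `ε < 1`,
`k (1 + ε) < 1`, `k₀ < k (1 - ε)`, and `‖x + e‖ ≤ ε`, `‖x‖ < 1 + ε` imply `‖f (k • x) - c‖ ≤ η`. `Θ`, `ψ` from `Trans` with `s`. `g z = f (k • Θ z)`: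
holomorphic on `D`, continuous on `closure D` (`‖k • Θ z‖ < 1` there), `a ≤ ‖g‖ ≤ b` on `closure D`. The last property: let `F` be near `g` on `D ∩ ball p s` and let `H` be a
solution for `F` on `D` with the bound `M`, `τ M ≤ 1/2`. For `ζ ∈ ball 0 (1 - ε)`, `z = ψ ζ`: `u ζ = ∑ g z j * H z j = 1 - ∑ (F z - g z) j * H z j`, and
`|∑ (F z - g z) j * H z j| ≤ ‖F z - g z‖ ‖H z‖ ≤ τ M ≤ 1/2` (Cauchy-Schwarz). So `H (ψ ζ) / u ζ` is a solution for `ζ ↦ f (k • ζ)` on `ball 0 (1 - ε)`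
with the bound `2 M`; `solv_scale` and `k (1 - ε) > k₀`: if `2 M ≤ A` this contradicts `solv_gap` (`Solv` is monotone in `A`). -/
theorem step_loc {D : Set (En n)} {p e : En n} (hT : Trans D p e) {f : En n → En N}
    (hf : DifferentiableOn ℂ f (ball 0 1)) {a b A : ℝ}
    (hb : ∀ z ∈ ball (0 : En n) 1, a ≤ ‖f z‖ ∧ ‖f z‖ ≤ b) (hns : ¬ Solv f (ball 0 1) A) {η s : ℝ}
    (hη : 0 < η) (hs : 0 < s) :
    ∃ (g : En n → En N) (c : En N), DifferentiableOn ℂ g D ∧ ContinuousOn g (closure D) ∧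
      (∀ z ∈ D, a ≤ ‖g z‖ ∧ ‖g z‖ ≤ b) ∧ a ≤ ‖c‖ ∧ ‖c‖ ≤ b ∧
      (∀ z ∈ closure D, z ∉ ball p s → ‖g z - c‖ ≤ η) ∧
      ∀ (F : En n → En N) (M τ : ℝ), 0 ≤ M → 2 * M ≤ A → τ * M ≤ 1 / 2 →
        (∀ z ∈ D, z ∈ ball p s → ‖F z - g z‖ ≤ τ) → ¬ Solv F (D ∩ ball p s) M := by
  obtain ⟨he, hT⟩ := hT
  obtain ⟨k₀, hk0, hk1, hgap⟩ := solv_gap hf hns
  set k : ℝ := (1 + k₀) / 2 with hk
  have hkk : k₀ < k := by rw [hk]; linarith
  have hklt : k < 1 := by rw [hk]; linarith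
  have hkpos : 0 < k := by linarith
  have hnk : ∀ x : En n, ‖(k : ℂ) • x‖ = k * ‖x‖ := by
    intro x
    rw [norm_smul, Complex.norm_real, Real.norm_of_nonneg hkpos.le]
  have hmem : (k : ℂ) • (-e) ∈ ball (0 : En n) 1 := by
    rw [mem_ball_zero_iff, hnk, norm_neg, he]
    linarith
  have hcts : ContinuousAt (fun x : En n => f ((k : ℂ) • x)) (-e) := by
    have h1 : ContinuousAt f ((k : ℂ) • (-e)) :=
      hf.continuousOn.continuousAt (isOpen_ball.mem_nhds hmem)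
    exact ContinuousAt.comp (f := fun x : En n => (k : ℂ) • x) h1 (continuous_const_smul (k : ℂ)).continuousAt
  obtain ⟨δ, hδ, hδf⟩ := Metric.continuousAt_iff.mp hcts η hη
  set ε : ℝ := min (1 / 2) (min (δ / 2) (min ((1 - k) / 2) ((k - k₀) / 2))) with hε
  have hε0 : 0 < ε := by
    rw [hε]
    refine lt_min (by norm_num) (lt_min (by linarith) (lt_min (by linarith) (by linarith)))
  have hε1 : ε ≤ 1 / 2 := min_le_left _ _
  have hε2 : ε ≤ δ / 2 := (min_le_right _ _).trans (min_le_left _ _)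
  have hε3 : ε ≤ (1 - k) / 2 := (min_le_right _ _).trans ((min_le_right _ _).trans (min_le_left _ _))
  have hε4 : ε ≤ (k - k₀) / 2 := (min_le_right _ _).trans ((min_le_right _ _).trans (min_le_right _ _))
  have hk2 : k * (1 + ε) < 1 := by nlinarith
  have hk3 : k₀ < k * (1 - ε) := by nlinarith
  obtain ⟨Θ, ψ, hΘd, hΘc, hΘn, hΘf, hψd, hψ⟩ := hT ε hε0 (by linarith) s hs
  have hin : ∀ z ∈ closure D, (k : ℂ) • Θ z ∈ ball (0 : En n) 1 := by
    intro z hz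
    rw [mem_ball_zero_iff, hnk]
    have := hΘn z hz
    nlinarith
  refine ⟨fun z => f ((k : ℂ) • Θ z), f ((k : ℂ) • (-e)), ?_, ?_, ?_, (hb _ hmem).1, (hb _ hmem).2, ?_, ?_⟩
  · exact hf.comp (hΘd.const_smul (k : ℂ)) fun z hz => hin z (subset_closure hz)
  · exact hf.continuousOn.comp (hΘc.const_smul (k : ℂ)) fun z hz => hin z hz
  · intro z hz
    exact hb _ (hin z (subset_closure hz))
  · intro z hz hzb
    have h1 : s ≤ ‖z - p‖ := by
      rw [mem_ball, dist_eq_norm] at hzb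
      exact not_lt.mp hzb
    have h2 := hΘf z hz h1
    have h3 : dist (Θ z) (-e) < δ := by
      rw [dist_eq_norm, sub_neg_eq_add]
      linarith
    have h4 := hδf h3
    rw [dist_eq_norm] at h4
    exact h4.le
  · intro F M τ hM hMA hτ hFg hS
    obtain ⟨H, hH1, hH2, hH3⟩ := hS
    have hψ' : ∀ ζ ∈ ball (0 : En n) (1 - ε), ψ ζ ∈ D ∩ ball p s := by
      intro ζ hζ
      obtain ⟨h1, h2, -⟩ := hψ ζ hζ
      exact ⟨h1, by rw [mem_ball, dist_eq_norm]; exact h2⟩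
    have hlt : k * (1 - ε) < 1 := by nlinarith
    apply hgap (k * (1 - ε)) hk3 hlt
    set u : En n → ℂ := fun ζ => ∑ j, f ((k : ℂ) • ζ) j * H (ψ ζ) j with hu
    have hinb : ∀ ζ ∈ ball (0 : En n) (1 - ε), (k : ℂ) • ζ ∈ ball (0 : En n) 1 := by
      intro ζ hζ
      rw [mem_ball_zero_iff] at hζ ⊢
      rw [hnk]
      nlinarith [norm_nonneg ζ]
    have hu1 : ∀ ζ ∈ ball (0 : En n) (1 - ε), ‖1 - u ζ‖ ≤ 1 / 2 := by
      intro ζ hζ
      obtain ⟨h1, h2, h3⟩ := hψ ζ hζ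
      have h4 := hH3 (ψ ζ) (hψ' ζ hζ)
      have h5 : 1 - u ζ = ∑ j, (F (ψ ζ) - f ((k : ℂ) • Θ (ψ ζ))) j * H (ψ ζ) j := by
        rw [hu, ← h4, ← Finset.sum_sub_distrib, h3]
        refine Finset.sum_congr rfl fun j _ => ?_
        simp only [PiLp.sub_apply]
        ring
      rw [h5]
      refine (G4_cs _ _).trans ?_
      have h6 : ‖F (ψ ζ) - f ((k : ℂ) • Θ (ψ ζ))‖ ≤ τ := hFg (ψ ζ) h1 (by
        rw [mem_ball, dist_eq_norm]
        exact h2)
      have h7 := hH2 (ψ ζ) (hψ' ζ hζ)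
      calc ‖F (ψ ζ) - f ((k : ℂ) • Θ (ψ ζ))‖ * ‖H (ψ ζ)‖ ≤ τ * M :=
            mul_le_mul h6 h7 (norm_nonneg _) ((norm_nonneg _).trans h6)
        _ ≤ 1 / 2 := hτ
    have hu2 : ∀ ζ ∈ ball (0 : En n) (1 - ε), 1 / 2 ≤ ‖u ζ‖ := by
      intro ζ hζ
      have h1 := hu1 ζ hζ
      have h2 : (1 : ℝ) ≤ ‖1 - u ζ‖ + ‖u ζ‖ := by
        calc (1 : ℝ) = ‖(1 - u ζ) + u ζ‖ := by simp
          _ ≤ ‖1 - u ζ‖ + ‖u ζ‖ := norm_add_le _ _
      linarith
    have hu3 : ∀ ζ ∈ ball (0 : En n) (1 - ε), u ζ ≠ 0 := by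
      intro ζ hζ h0
      have := hu2 ζ hζ
      rw [h0, norm_zero] at this
      linarith
    have hfd : DifferentiableOn ℂ (fun ζ : En n => f ((k : ℂ) • ζ)) (ball 0 (1 - ε)) :=
      hf.comp ((differentiable_id.const_smul (k : ℂ)).differentiableOn) hinb
    have hHd : DifferentiableOn ℂ (fun ζ : En n => H (ψ ζ)) (ball 0 (1 - ε)) :=
      hH1.comp hψd hψ'
    have hcoord : ∀ {G : En n → En N} {E : Set (En n)}, DifferentiableOn ℂ G E → ∀ j : Fin N,
        DifferentiableOn ℂ (fun ζ => G ζ j) E := by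
      intro G E hG j
      exact ((EuclideanSpace.proj j : En N →L[ℂ] ℂ).differentiable.comp_differentiableOn hG)
    have hud : DifferentiableOn ℂ u (ball 0 (1 - ε)) := by
      apply DifferentiableOn.fun_sum
      intro j _
      exact (hcoord hfd j).mul (hcoord hHd j)
    have hsol : Solv (fun ζ => f ((k : ℂ) • ζ)) (ball 0 (1 - ε)) A := by
      refine ⟨fun ζ => (u ζ)⁻¹ • H (ψ ζ), ?_, ?_, ?_⟩
      · exact (hud.inv hu3).smul hHd
      · intro ζ hζ
        rw [norm_smul, norm_inv]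
        have h1 := hu2 ζ hζ
        have h2 : ‖u ζ‖⁻¹ ≤ 2 := by
          rw [inv_le_comm₀ (by linarith) (by norm_num)]
          linarith
        have h3 := hH2 (ψ ζ) (hψ' ζ hζ)
        calc ‖u ζ‖⁻¹ * ‖H (ψ ζ)‖ ≤ 2 * M := mul_le_mul h2 h3 (norm_nonneg _) (by norm_num)
          _ ≤ A := hMA
      · intro ζ hζ
        have h1 : ∀ j, f ((k : ℂ) • ζ) j * ((u ζ)⁻¹ • H (ψ ζ)) j =
            (u ζ)⁻¹ * (f ((k : ℂ) • ζ) j * H (ψ ζ) j) := by
          intro j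
          simp only [PiLp.smul_apply, smul_eq_mul]
          ring
        rw [Finset.sum_congr rfl fun j _ => h1 j, ← Finset.mul_sum]
        exact inv_mul_cancel₀ (hu3 ζ hζ)
    have hfin := solv_scale (by linarith : 0 < 1 - ε) hsol
    have heq : (fun z : En n => f (((k * (1 - ε) : ℝ) : ℂ) • z)) =
        fun z => (fun ζ => f ((k : ℂ) • ζ)) (((1 - ε : ℝ) : ℂ) • z) := by
      funext z
      show f _ = f _
      rw [smul_smul, Complex.ofReal_mul]
    rw [heq]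
    exact hfin

/-- Q1 near one boundary point, for data continuous up to the boundary at all other points, implies uniform bounds on the ball. -/
theorem uniform_ball_loc (hn : 1 ≤ n) {D U : Set (En n)} {ρ : En n → ℝ} {h : En n → En n → Fin n → ℂ}
    {c : ℝ} (hs : SupportData D U ρ h c) {p : En n} (hp : p ∈ frontier D) {δ' δ : ℝ} (hδ' : 0 < δ')
    (hδδ : δ' < δ)
    (hQ : ∀ F : En n → En N, DifferentiableOn ℂ F D → ContinuousOn F (closure D \ {p}) →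
      (∀ z ∈ D, δ' ≤ ‖F z‖ ∧ ‖F z‖ ≤ 1) → ∃ r > 0, ∃ A, Solv F (D ∩ ball p r) A) :
    ∃ A, ∀ f : En n → En N, DifferentiableOn ℂ f (ball 0 1) →
      (∀ z ∈ ball (0 : En n) 1, δ ≤ ‖f z‖ ∧ ‖f z‖ ≤ 1) → Solv f (ball 0 1) A := by
  by_contra hcon
  push Not at hcon
  obtain ⟨hDo, -⟩ := support_bdry hs
  have hδ : 0 < δ := hδ'.trans hδδ
  set κ : ℝ := (δ - δ') / (1 + δ') with hκ
  have hκ0 : 0 < κ := div_pos (by linarith) (by linarith)
  have hκ1 : κ * (1 + δ') = δ - δ' := by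
    rw [hκ]
    field_simp
  choose f hf hfb hfn using fun k : ℕ => hcon (k : ℝ)
  obtain ⟨P, s, hPf, hs0, hPt, hst, hsP, hdis⟩ := exists_seq hn hs hp
  have htr : ∀ k, ∃ e, Trans D (P k) e := fun k => trans_of_support hs (hPf k)
  choose e he using htr
  set η : ℕ → ℝ := fun k => κ / 8 * (1 / 2) ^ k with hη
  have hηpos : ∀ k, 0 < η k := fun k => by
    rw [hη]
    positivity
  have hηanti : ∀ {i j : ℕ}, i ≤ j → η j ≤ η i := by
    intro i j hij
    rw [hη]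
    apply mul_le_mul_of_nonneg_left _ (by positivity)
    exact pow_le_pow_of_le_one (by norm_num) (by norm_num) hij
  have hstep := fun k => step_loc (he k) (hf k) (hfb k) (hfn k) (hηpos k) (hs0 k)
  choose g cc hgd hgc hgb hca hcb hoff hlast using hstep
  obtain ⟨c₀, -, φ, hφ, hφc⟩ := (isCompact_closedBall (0 : En N) 1).tendsto_subseq
    (x := cc) (fun k => by rw [mem_closedBall_zero_iff]; exact hcb k)
  have hev : ∀ m : ℕ, ∀ᶠ k in atTop, ‖cc (φ k) - c₀‖ ≤ η m := by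
    intro m
    have h1 := (Metric.tendsto_nhds.mp hφc) (η m) (hηpos m)
    filter_upwards [h1] with k hk
    rw [dist_eq_norm] at hk
    exact hk.le
  obtain ⟨φ', hφ', hφc'⟩ := extraction_forall_of_eventually hev
  set χ : ℕ → ℕ := φ ∘ φ' with hχ
  have hχm : StrictMono χ := hφ.comp hφ'
  have hχk : ∀ k, k ≤ χ k := fun k => hχm.le_apply
  have hsum : HasSum η (κ / 4) := by
    have h1 := (hasSum_geometric_two).mul_left (κ / 8)
    have h2 : κ / 8 * 2 = κ / 4 := by ring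
    rw [h2] at h1
    exact h1
  obtain ⟨F, hFd, hFc, hFg, hFt⟩ := glue hDo hp (P := P ∘ χ) (s := s ∘ χ) (fun k => hs0 _)
    (hPt.comp hχm.tendsto_atTop) (hst.comp hχm.tendsto_atTop) (fun k => hsP _)
    (fun j k hjk => hdis _ _ (fun h => hjk (hχm.injective h)))
    (g := g ∘ χ) (c := cc ∘ χ) (c₀ := c₀) (η := η) (η₀ := κ / 4)
    (fun k => hgd _) (fun k => hgc _) (fun k => (hηpos k).le) hsum.summable hsum.tsum_eq.le
    (fun k z hz hzb => (hoff (χ k) z hz hzb).trans (hηanti (hχk k)))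
    (fun k => hφc' k)
  have hc0 : ‖cc (χ 0) - c₀‖ ≤ κ / 8 := by
    have h1 : ‖cc (χ 0) - c₀‖ ≤ κ / 8 * (1 / 2) ^ 0 := hφc' 0
    rw [pow_zero, mul_one] at h1
    exact h1
  have hc0l : δ - κ / 8 ≤ ‖c₀‖ := by
    have h1 : ‖cc (χ 0)‖ ≤ ‖cc (χ 0) - c₀‖ + ‖c₀‖ := by
      calc ‖cc (χ 0)‖ = ‖(cc (χ 0) - c₀) + c₀‖ := by simp
        _ ≤ _ := norm_add_le _ _
    have h2 := hca (χ 0)
    linarith
  have hc0u : ‖c₀‖ ≤ 1 + κ / 8 := by
    have h1 : ‖c₀‖ ≤ ‖cc (χ 0) - c₀‖ + ‖cc (χ 0)‖ := by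
      calc ‖c₀‖ = ‖cc (χ 0) - (cc (χ 0) - c₀)‖ := by simp
        _ ≤ ‖cc (χ 0)‖ + ‖cc (χ 0) - c₀‖ := norm_sub_le _ _
        _ = _ := by ring
    have h2 := hcb (χ 0)
    linarith
  have hFl : ∀ z ∈ D, δ - κ ≤ ‖F z‖ ∧ ‖F z‖ ≤ 1 + κ := by
    intro z hz
    rcases hFg z hz with ⟨k, hk⟩ | hk
    · have h1 := hgb (χ k) z hz
      have h2 : ‖g (χ k) z‖ ≤ ‖F z - g (χ k) z‖ + ‖F z‖ := by
        calc ‖g (χ k) z‖ = ‖F z - (F z - g (χ k) z)‖ := by simp
          _ ≤ ‖F z‖ + ‖F z - g (χ k) z‖ := norm_sub_le _ _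
          _ = _ := by ring
      have h3 : ‖F z‖ ≤ ‖F z - g (χ k) z‖ + ‖g (χ k) z‖ := by
        calc ‖F z‖ = ‖(F z - g (χ k) z) + g (χ k) z‖ := by simp
          _ ≤ _ := norm_add_le _ _
      have h4 : ‖F z - g (χ k) z‖ ≤ 2 * (κ / 4) := hk
      constructor <;> linarith [h1.1, h1.2]
    · have h2 : ‖c₀‖ ≤ ‖F z - c₀‖ + ‖F z‖ := by
        calc ‖c₀‖ = ‖F z - (F z - c₀)‖ := by simp
          _ ≤ ‖F z‖ + ‖F z - c₀‖ := norm_sub_le _ _
          _ = _ := by ring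
      have h3 : ‖F z‖ ≤ ‖F z - c₀‖ + ‖c₀‖ := by
        calc ‖F z‖ = ‖(F z - c₀) + c₀‖ := by simp
          _ ≤ _ := norm_add_le _ _
      constructor <;> linarith
  have hκi : (0 : ℝ) < 1 / (1 + κ) := by positivity
  have hnF : ∀ z, ‖((1 / (1 + κ) : ℝ) : ℂ) • F z‖ = 1 / (1 + κ) * ‖F z‖ := by
    intro z
    rw [norm_smul, Complex.norm_real, Real.norm_of_nonneg hκi.le]
  obtain ⟨r, hr, A, G, hG1, hG2, hG3⟩ := hQ (fun z => ((1 / (1 + κ) : ℝ) : ℂ) • F z)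
    (hFd.fun_const_smul _) (ContinuousOn.fun_smul continuousOn_const hFc) (fun z hz => by
      obtain ⟨h1, h2⟩ := hFl z hz
      rw [hnF z]
      constructor
      · rw [one_div, inv_mul_eq_div, le_div_iff₀ (by linarith)]
        nlinarith
      · rw [one_div, inv_mul_eq_div, div_le_one (by linarith)]
        exact h2)
  set M : ℝ := max A 0 with hM
  have hM0 : 0 ≤ M := le_max_right _ _
  have hSM : Solv F (D ∩ ball p r) M := by
    refine ⟨fun z => ((1 / (1 + κ) : ℝ) : ℂ) • G z, hG1.fun_const_smul _, fun z hz => ?_, fun z hz => ?_⟩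
    · rw [norm_smul, Complex.norm_real, Real.norm_of_nonneg hκi.le]
      have h1 := hG2 z hz
      have h2 : 1 / (1 + κ) ≤ 1 := by
        rw [div_le_one (by linarith)]
        linarith
      calc 1 / (1 + κ) * ‖G z‖ ≤ 1 * ‖G z‖ := mul_le_mul_of_nonneg_right h2 (norm_nonneg _)
        _ = ‖G z‖ := one_mul _
        _ ≤ A := h1
        _ ≤ M := le_max_left _ _
    · have h1 := hG3 z hz
      rw [← h1]
      refine Finset.sum_congr rfl fun j _ => ?_
      simp only [PiLp.smul_apply, smul_eq_mul]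
      ring
  obtain ⟨K, hK⟩ := hFt (1 / (2 * (M + 1))) (by positivity)
  have hPr : ∀ᶠ k in atTop, ball ((P ∘ χ) k) ((s ∘ χ) k) ⊆ ball p r := by
    have h1 : ∀ᶠ k in atTop, dist ((P ∘ χ) k) p < r / 2 :=
      (Metric.tendsto_nhds.mp (hPt.comp hχm.tendsto_atTop)) (r / 2) (by positivity)
    have h2 : ∀ᶠ k in atTop, (s ∘ χ) k < r / 2 :=
      (hst.comp hχm.tendsto_atTop).eventually_lt_const (by positivity)
    filter_upwards [h1, h2] with k h3 h4
    exact ball_subset_ball' (by linarith)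
  obtain ⟨K', hK'⟩ := eventually_atTop.mp hPr
  obtain ⟨k, hk1, hk2, hk3⟩ : ∃ k : ℕ, K ≤ k ∧ 2 * M ≤ (k : ℝ) ∧ K' ≤ k :=
    ⟨max (max K ⌈2 * M⌉₊) K', (le_max_left _ _).trans (le_max_left _ _),
      (Nat.le_ceil _).trans (by exact_mod_cast (le_max_right K ⌈2 * M⌉₊).trans (le_max_left _ _)),
      le_max_right _ _⟩
  refine hlast (χ k) F M (1 / (2 * (M + 1))) hM0 ?_ ?_ (fun z hz hzb => hK k hk1 z hz hzb)
    (solv_sub hSM fun z hz => ⟨hz.1, hK' k hk3 hz.2⟩)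
  · exact hk2.trans (by exact_mod_cast hχk k)
  · rw [div_mul_eq_mul_div, div_le_div_iff₀ (by positivity) (by norm_num)]
    linarith

end Pool.Agent.MPca0fc2.TB
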