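import Mathlib
import Pool.Agent.Lib.MP_ca0fc2_an.CubMain

set_option autoImplicit false

open Metric Set MvPolynomial
open Pool.Agent.Lib.MP_ca0fc2_an

namespace Pool.Agent.MPca0fc2.TB

/-- Corona data `|f| ≥ δ`, `|f| ≤ 1` on the closed unit ball of `ℂⁿ`, `n ≥ 2`, given by polynomials,
all of whose bounded holomorphic solutions have size at least `1/(64 δ³)`. On the unit disc, for
two functions, there are always solutions of size at most `C δ⁻² log (1/δ)`. -/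
theorem cubic_old (n N : ℕ) (hn : 2 ≤ n) (hN : 2 ≤ N) (δ : ℝ) (hδ : 0 < δ) (hδ1 : δ ≤ 1 / 20) :
    ∃ p : Fin N → MvPolynomial (Fin n) ℂ,
      (∀ z : EuclideanSpace ℂ (Fin n), ‖z‖ ≤ 1 →
        δ ^ 2 ≤ ∑ j, ‖eval (fun i => z i) (p j)‖ ^ 2 ∧ ∑ j, ‖eval (fun i => z i) (p j)‖ ^ 2 ≤ 1) ∧
      ∀ h : Fin N → EuclideanSpace ℂ (Fin n) → ℂ,
        (∀ j, DifferentiableOn ℂ (h j) (ball 0 1)) →
        (∀ z ∈ ball (0 : EuclideanSpace ℂ (Fin n)) 1, ∑ j, eval (fun i => z i) (p j) * h j z = 1) →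
        ∀ A : ℝ, 0 ≤ A → (∀ z ∈ ball (0 : EuclideanSpace ℂ (Fin n)) 1, ∑ j, ‖h j z‖ ^ 2 ≤ A ^ 2) →
          1 / (64 * δ ^ 3) ≤ A := by
  obtain ⟨n', rfl⟩ : ∃ n', n = n' + 2 := ⟨n - 2, by omega⟩
  obtain ⟨N', rfl⟩ : ∃ N', N = N' + 2 := ⟨N - 2, by omega⟩
  obtain ⟨F, hF, hb, hmain⟩ := Cubic.main2 hδ hδ1
  choose q hq using hF
  set g : Fin 2 → Fin (n' + 2) := Fin.castLE (by omega) with hg
  have hg0 : g 0 = 0 := rfl
  have hg1 : g 1 = 1 := rfl
  set p : Fin (N' + 2) → MvPolynomial (Fin (n' + 2)) ℂ :=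
    Fin.cons (rename g (q 0)) (Fin.cons (rename g (q 1)) fun _ => 0) with hp
  have hev : ∀ (z : EuclideanSpace ℂ (Fin (n' + 2))) (i : Fin 2),
      eval (fun i => z i) (rename g (q i)) = F (z 0, z 1) i := by
    intro z i
    have h1 := hq i (z 0, z 1)
    simp only at h1
    rw [eval_rename, ← h1]
    have h2 : ((fun i => z i) ∘ g : Fin 2 → ℂ) = ![z 0, z 1] := by
      funext k
      fin_cases k
      · simp [hg0]
      · simp [hg1]
    rw [h2]
  have hsum : ∀ (z : EuclideanSpace ℂ (Fin (n' + 2))) (u : Fin (N' + 2) → ℂ),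
      ∑ j, eval (fun i => z i) (p j) * u j = F (z 0, z 1) 0 * u 0 + F (z 0, z 1) 1 * u 1 := by
    intro z u
    rw [Fin.sum_univ_succ, Fin.sum_univ_succ, hp]
    simp only [Fin.cons_zero, Fin.cons_succ, hev, map_zero, zero_mul, Finset.sum_const_zero, add_zero]
    rfl
  have hnsum : ∀ (z : EuclideanSpace ℂ (Fin (n' + 2))),
      ∑ j, ‖eval (fun i => z i) (p j)‖ ^ 2 = ‖F (z 0, z 1)‖ ^ 2 := by
    intro z
    rw [Fin.sum_univ_succ, Fin.sum_univ_succ, hp]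
    simp only [Fin.cons_zero, Fin.cons_succ, hev, map_zero, norm_zero]
    rw [EuclideanSpace.norm_sq_eq, Fin.sum_univ_two]
    simp
  refine ⟨p, ?_, ?_⟩
  · intro z hz
    have hw : (z 0, z 1) ∈ Cubic.Bc := by
      have h1 : ‖z‖ ^ 2 ≤ 1 := by nlinarith [norm_nonneg z]
      rw [EuclideanSpace.norm_sq_eq, Fin.sum_univ_succ, Fin.sum_univ_succ] at h1
      have h2 : 0 ≤ ∑ i : Fin n', ‖z i.succ.succ‖ ^ 2 := by positivity
      have h3 : ‖z 0‖ ^ 2 + ‖z 1‖ ^ 2 ≤ 1 := by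
        have h4 : (Fin.succ 0 : Fin (n' + 2)) = 1 := rfl
        rw [h4] at h1
        linarith
      exact h3
    obtain ⟨h5, h6⟩ := hb _ hw
    rw [hnsum]
    constructor
    · gcongr
    · nlinarith [norm_nonneg (F (z 0, z 1))]
  · intro h hh hsol A hA hbd
    set ι : ℂ × ℂ → EuclideanSpace ℂ (Fin (n' + 2)) := fun w =>
      w.1 • EuclideanSpace.single 0 1 + w.2 • EuclideanSpace.single 1 1 with hι
    have hι0 : ∀ w, ι w 0 = w.1 := by intro w; simp [hι]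
    have hι1 : ∀ w, ι w 1 = w.2 := by intro w; simp [hι]
    have hιs : ∀ w (i : Fin n'), ι w i.succ.succ = 0 := by
      intro w i
      have h1 : (i.succ.succ : Fin (n' + 2)) ≠ 0 := Fin.succ_ne_zero _
      have h2 : (i.succ.succ : Fin (n' + 2)) ≠ 1 := by
        intro h
        have := congrArg Fin.val h
        simp at this
      simp [hι, h1, h2]
    have hιb : ∀ w ∈ Cubic.Bo, ι w ∈ ball (0 : EuclideanSpace ℂ (Fin (n' + 2))) 1 := by
      intro w hw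
      have hw' : ‖w.1‖ ^ 2 + ‖w.2‖ ^ 2 < 1 := hw
      rw [mem_ball_zero_iff]
      have h1 : ‖ι w‖ ^ 2 < 1 := by
        rw [EuclideanSpace.norm_sq_eq, Fin.sum_univ_succ, Fin.sum_univ_succ]
        have h4 : (Fin.succ 0 : Fin (n' + 2)) = 1 := rfl
        simp only [h4, hι0, hι1, hιs, norm_zero]
        simpa using hw'
      nlinarith [norm_nonneg (ι w)]
    have hιd : Differentiable ℂ ι := by
      rw [hι]
      fun_prop
    have hd : ∀ j, DifferentiableOn ℂ (fun w => h j (ι w)) Cubic.Bo := fun j =>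
      (hh j).comp hιd.differentiableOn hιb
    refine hmain (fun w => h 0 (ι w)) (fun w => h 1 (ι w)) (hd 0) (hd 1) ?_ A hA ?_
    · intro w hw
      have := hsol (ι w) (hιb w hw)
      rw [hsum (ι w) (fun j => h j (ι w)), hι0, hι1] at this
      exact this
    · intro w hw
      have h1 := hbd (ι w) (hιb w hw)
      rw [Fin.sum_univ_succ, Fin.sum_univ_succ] at h1
      have h2 : 0 ≤ ∑ i : Fin N', ‖h i.succ.succ (ι w)‖ ^ 2 := by positivity
      have h4 : (Fin.succ 0 : Fin (N' + 2)) = 1 := rfl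
      rw [h4] at h1
      show ‖h 0 (ι w)‖ ^ 2 + ‖h 1 (ι w)‖ ^ 2 ≤ A ^ 2
      linarith

end Pool.Agent.MPca0fc2.TB
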