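import Pool.Agent.Lib.MP_ca0fc2_an.Mg.G077
import Pool.Agent.Lib.MP_ca0fc2_an.Mg.G080

/-! The corona constants of the ball are the smallest ones. -/

set_option autoImplicit false

open Metric Set Filter Topology

namespace Pool.Agent.MPca0fc2.TB

open Pool.Agent.Lib.MP_ca0fc2_an (SupportData)

variable {n N : ℕ}

/-- PROOF. By contradiction with `solv_gap`: `k₀`. Take `k = (1 + k₀) / 2` and `ε ∈ (0, 1)` with `k (1 + ε) < 1` and `k₀ < k (1 - ε)`.
`Θ`, `ψ` from `Trans` (any `s`). `F z = f (k • Θ z)` is holomorphic on `D` (`‖k • Θ z‖ < k (1 + ε) < 1`) with `a ≤ ‖F‖ ≤ b`; let `H` be a solution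
of `hQ`. Then `H ∘ ψ` solves for `ζ ↦ f (k • ζ)` on `ball 0 (1 - ε)` with the bound `A` (`Θ (ψ ζ) = ζ`), so by `solv_scale` `f (k (1 - ε) • z)` is solvable
on the unit ball: contradiction. -/
theorem comparison {D : Set (En n)} {p e : En n} (hT : Trans D p e) {a b A : ℝ}
    (hQ : ∀ F : En n → En N, DifferentiableOn ℂ F D → (∀ z ∈ D, a ≤ ‖F z‖ ∧ ‖F z‖ ≤ b) →
      Solv F D A) {f : En n → En N} (hf : DifferentiableOn ℂ f (ball 0 1))
    (hb : ∀ z ∈ ball (0 : En n) 1, a ≤ ‖f z‖ ∧ ‖f z‖ ≤ b) : Solv f (ball 0 1) A := by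
  by_contra hno
  obtain ⟨k₀, hk0, hk1, hk⟩ := solv_gap hf hno
  obtain ⟨he, hTT⟩ := hT
  set k : ℝ := (1 + k₀) / 2 with hkdef
  set ε : ℝ := (1 - k₀) / 4 with hεdef
  have hkpos : 0 < k := by rw [hkdef]; linarith
  have hklt : k < 1 := by rw [hkdef]; linarith
  have hεpos : 0 < ε := by rw [hεdef]; linarith
  have hεlt : ε < 1 := by rw [hεdef]; linarith
  have hkε : k * ε < (1 - k₀) / 2 := by
    have h1 : k * ε ≤ 1 * ε := mul_le_mul_of_nonneg_right hklt.le hεpos.le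
    have h2 : ε < (1 - k₀) / 2 := by rw [hεdef]; linarith
    linarith
  have h1 : k * (1 + ε) < 1 := by
    have : k * (1 + ε) = k + k * ε := by ring
    rw [this, hkdef] at *
    linarith
  have h2 : k₀ < k * (1 - ε) := by
    have : k * (1 - ε) = k - k * ε := by ring
    rw [this]
    have h3 : k = (1 + k₀) / 2 := hkdef
    linarith
  obtain ⟨Θ, ψ, hΘ, -, hΘb, -, hψ, hψb⟩ := hTT ε hεpos hεlt 1 one_pos
  have hmem : ∀ z ∈ D, (k : ℂ) • Θ z ∈ ball (0 : En n) 1 := by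
    intro z hz
    rw [mem_ball_zero_iff, norm_smul, Complex.norm_real, Real.norm_of_nonneg hkpos.le]
    exact lt_trans (mul_lt_mul_of_pos_left (hΘb z (subset_closure hz)) hkpos) h1
  have hF : DifferentiableOn ℂ (fun z => f ((k : ℂ) • Θ z)) D :=
    hf.comp (hΘ.const_smul (k : ℂ)) hmem
  obtain ⟨H, hH1, hH2, hH3⟩ := hQ _ hF fun z hz => hb _ (hmem z hz)
  have hS : Solv (fun ζ => f ((k : ℂ) • ζ)) (ball 0 (1 - ε)) A := by
    refine ⟨fun ζ => H (ψ ζ), hH1.comp hψ fun ζ hζ => (hψb ζ hζ).1,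
      fun ζ hζ => hH2 _ (hψb ζ hζ).1, fun ζ hζ => ?_⟩
    have h3 := hH3 _ (hψb ζ hζ).1
    simp only [(hψb ζ hζ).2.2] at h3
    exact h3
  have hS' := solv_scale (by linarith : (0 : ℝ) < 1 - ε) hS
  refine hk (k * (1 - ε)) h2 ?_ ?_
  · have : k * (1 - ε) ≤ k * 1 := mul_le_mul_of_nonneg_left (by linarith) hkpos.le
    linarith
  · have e1 : (fun z : En n => f (((k * (1 - ε) : ℝ) : ℂ) • z)) =
        fun z : En n => f ((k : ℂ) • ((((1 - ε : ℝ)) : ℂ) • z)) := by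
      funext z
      rw [smul_smul]
      push_cast
      rfl
    rw [e1]
    exact hS'

end Pool.Agent.MPca0fc2.TB
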