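import Pool.Agent.Lib.MP_ca0fc2_an.TB.F1
import Pool.Agent.Lib.MP_ca0fc2_an.TB.F0

/-! The cubic lower bound on every strictly pseudoconvex domain. -/

set_option autoImplicit false

open Metric Set Filter Topology MvPolynomial

namespace Pool.Agent.MPca0fc2.TB

open Pool.Agent.Lib.MP_ca0fc2_an (SupportData)

variable {n N : ℕ}

/-- PROOF. `trans_of_support` at a boundary point `p` (`D` is bounded, open and not empty, so `frontier D ≠ ∅` as `n ≥ 1`: `frontier_eq_empty_iff` or
the argument: a bounded nonempty open set is not closed in the connected unbounded space). Suppose that for all `F` there is a solution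
of size `≤ A`; `comparison` with `a = δ`, `b = 1`, then every holomorphic `f` on the ball with `δ ≤ ‖f‖ ≤ 1` is solvable with the bound `A`
(`A ≥ 0` as the ball is not empty), which contradicts the theorem of the ball, `hcub`. Write `F` as a vector function. -/
theorem cubic_of {D U : Set (En n)} {ρ : En n → ℝ} {h : En n → En n → Fin n → ℂ} {c : ℝ}
    (hn : 1 ≤ n) (hs : SupportData D U ρ h c) (hne : D.Nonempty) {δ A₀ : ℝ}
    (hcub : ∃ f : En n → En N, DifferentiableOn ℂ f (ball 0 1) ∧
      (∀ z ∈ ball (0 : En n) 1, δ ≤ ‖f z‖ ∧ ‖f z‖ ≤ 1) ∧ ∀ A, Solv f (ball 0 1) A → A₀ ≤ A)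
    {A : ℝ} (hA : A < A₀) :
    ∃ F : En n → En N, DifferentiableOn ℂ F D ∧ (∀ z ∈ D, δ ≤ ‖F z‖ ∧ ‖F z‖ ≤ 1) ∧
      ¬ Solv F D A := by
  by_contra hcon
  push Not at hcon
  obtain ⟨f, hf, hfb, hfA⟩ := hcub
  have hDb : Bornology.IsBounded D := by
    refine hs.cpt.isBounded.subset ?_
    rw [hs.eq]
    intro z hz
    exact ⟨hz.1, le_of_lt hz.2⟩
  have hfr : (frontier D).Nonempty := by
    rw [Set.nonempty_iff_ne_empty]
    intro h0
    have hn' : Nonempty (Fin n) := ⟨⟨0, hn⟩⟩
    rcases frontier_eq_empty_iff.mp h0 with h1 | h1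
    · exact hne.ne_empty h1
    · rw [h1] at hDb
      have : Nontrivial (En n) := inferInstance
      exact NormedSpace.unbounded_univ ℂ (En n) hDb
  obtain ⟨p, hp⟩ := hfr
  obtain ⟨e, hT⟩ := trans_of_support hs hp
  have h1 : Solv f (ball 0 1) A :=
    comparison hT (a := δ) (b := 1) (A := A) (fun F hF hFb => hcon F hF hFb) hf hfb
  exact absurd (hfA A h1) (not_le.mpr hA)

/-- The theorem on the ball.
PROOF. `cubic_old` (file F0.lean): take `f z = WithLp.toLp 2 (fun j => eval (fun i => z i) (p j))`; the norm of `f z` is the square root of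
`∑ ‖eval .. (p j)‖ ^ 2` (`EuclideanSpace.norm_sq_eq`); holomorphic by the differentiability of polynomials (`Cubic.differentiable_eval` is the case of two variables; induction
`MvPolynomial.induction_on`). `Solv f (ball 0 1) A` implies `0 ≤ A` (the ball is not empty). -/
theorem cubic_ball (hn : 2 ≤ n) (hN : 2 ≤ N) {δ : ℝ} (hδ : 0 < δ) (hδ1 : δ ≤ 1 / 20) :
    ∃ f : En n → En N, DifferentiableOn ℂ f (ball 0 1) ∧
      (∀ z ∈ ball (0 : En n) 1, δ ≤ ‖f z‖ ∧ ‖f z‖ ≤ 1) ∧
      ∀ A, Solv f (ball 0 1) A → 1 / (64 * δ ^ 3) ≤ A := by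
  obtain ⟨p, hp1, hp2⟩ := cubic_old n N hn hN δ hδ hδ1
  have hpol : ∀ q : MvPolynomial (Fin n) ℂ, Differentiable ℂ fun z : En n => eval (fun i => z i) q := by
    intro q
    induction q using MvPolynomial.induction_on with
    | C a => simp
    | add a b ha hb =>
      simp only [map_add]
      exact ha.add hb
    | mul_X a i ha =>
      have h1 : Differentiable ℂ fun z : En n => z i := (EuclideanSpace.proj (𝕜 := ℂ) i).differentiable
      simp only [map_mul, MvPolynomial.eval_X]
      exact ha.mul h1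
  have hns : ∀ z : En n, ‖(WithLp.toLp 2 fun j => eval (fun i => z i) (p j) : En N)‖ ^ 2 =
      ∑ j, ‖eval (fun i => z i) (p j)‖ ^ 2 := by
    intro z
    rw [EuclideanSpace.norm_sq_eq]
  refine ⟨fun z => WithLp.toLp 2 fun j => eval (fun i => z i) (p j), ?_, ?_, ?_⟩
  · intro z _
    rw [differentiableWithinAt_euclidean]
    intro j
    exact (hpol (p j)).differentiableAt.differentiableWithinAt
  · intro z hz
    rw [mem_ball_zero_iff] at hz
    obtain ⟨h1, h2⟩ := hp1 z hz.le
    rw [← hns z] at h1 h2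
    constructor
    · exact (sq_le_sq₀ hδ.le (norm_nonneg _)).mp h1
    · have h3 : ‖(WithLp.toLp 2 fun j => eval (fun i => z i) (p j) : En N)‖ ^ 2 ≤ 1 ^ 2 := by
        simpa using h2
      exact (sq_le_sq₀ (norm_nonneg _) zero_le_one).mp h3
  · intro A ⟨h, h1, h2, h3⟩
    have hA : 0 ≤ A := (norm_nonneg _).trans (h2 0 (mem_ball_self one_pos))
    refine hp2 (fun j z => h z j) (fun j => ?_) (fun z hz => h3 z hz) A hA (fun z hz => ?_)
    · exact (EuclideanSpace.proj (𝕜 := ℂ) j).differentiable.comp_differentiableOn h1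
    · rw [← EuclideanSpace.norm_sq_eq]
      exact pow_le_pow_left₀ (norm_nonneg _) (h2 z hz) 2

end Pool.Agent.MPca0fc2.TB
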