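import Pool.Agent.Lib.MP_ca0fc2_an.TB.F2
import Pool.Agent.Lib.MP_ca0fc2_an.TB.G4

/-! The local corona constants of every strictly pseudoconvex domain, at every boundary point, are not smaller than those of the ball. -/

set_option autoImplicit false

open Metric Set Filter Topology

namespace Pool.Agent.MPca0fc2.TB

open Pool.Agent.Lib.MP_ca0fc2_an (SupportData)

variable {n N : ℕ}

/-- Data on the ball which have no solution of size `< A₀` give data on `D`, continuous on the closure, which have no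
solution of size `A < A₀` near a given boundary point. -/
theorem cubic_loc {D U : Set (En n)} {ρ : En n → ℝ} {h : En n → En n → Fin n → ℂ} {c : ℝ}
    (hs : SupportData D U ρ h c) {p : En n} (hp : p ∈ frontier D) {r : ℝ} (hr : 0 < r) {δ A₀ : ℝ}
    (hcub : ∃ f : En n → En N, DifferentiableOn ℂ f (ball 0 1) ∧
      (∀ z ∈ ball (0 : En n) 1, δ ≤ ‖f z‖ ∧ ‖f z‖ ≤ 1) ∧ ∀ A, Solv f (ball 0 1) A → A₀ ≤ A)
    {A : ℝ} (hA : A < A₀) :
    ∃ F : En n → En N, DifferentiableOn ℂ F D ∧ ContinuousOn F (closure D) ∧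
      (∀ z ∈ closure D, δ ≤ ‖F z‖ ∧ ‖F z‖ ≤ 1) ∧ ¬ Solv F (D ∩ ball p r) A := by
  by_contra hcon
  push Not at hcon
  obtain ⟨f, hf, hfb, hfA⟩ := hcub
  obtain ⟨e, hT⟩ := trans_of_support hs hp
  have h1 : Solv f (ball 0 1) A :=
    comparison_loc hT hr (a := δ) (b := 1) (A := A) (fun F hF hFc hFb => hcon F hF hFc hFb) hf hfb
  exact absurd (hfA A h1) (not_le.mpr hA)

end Pool.Agent.MPca0fc2.TB
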